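import Pool.Agent.Y707.SQ.Fin

/-!
# The analytic generalized Nagao conjecture for `Y ^ 2 = D_n(X, a) - D_n(z, a) + (v + b(z, X)) ^ 2`

`V` is the variety of the points `(x, y)` with `y_i ^ 2 = G_i(x)`, over the number field `K`, for
polynomials `G_i` in `k` variables such that no product of some of them is a constant times a square.
`X` is the curve `Y ^ 2 = D_n(X, a(x)) - D_n(z, a(x)) + (v + b(x, z, X)) ^ 2` of genus `m` over the
function field `E(V × 𝔸²) = E(V)(z, v)`, for any number field `E ⊇ K`.  Here `D_n`, `n = 2 m + 1`, is
the Dickson polynomial with the parameter `a`, a nonzero polynomial function on the base: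
`D_n(u + a / u, a) = u ^ n + (a / u) ^ n`, and `b` is any polynomial of degree at most `m` in `X`.
For `b = 0` put `w = v ^ 2 - D_n(z, a)`: then `X` is the curve `C` with the equation
`Y ^ 2 = D_n(X, a) + w` over `E(V)(w)`, extended to its own function field, and the rank is that of the
group of the endomorphisms of the Jacobian of `C` over `E(V)(w)`, which has real multiplication.

`𝔄_v` is the fibre average of the traces of the Frobenius on `H¹` at the prime `v` of `E`, over the
points `(x, y, z, v)` of the base with `y_i ≠ 0` and smooth fibre (the other points of a projective model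
of the base change `𝔄_v` by `O(q_v^{-1/2})`, which does not affect the residue).

`X` has a rational point at infinity, and `P_X = Pic⁰ X` is the class group of its affine coordinate
ring.  It has no torsion over any `E`, so the `K(𝒴)/K`-trace of `P_X` is zero, and `𝔄* = 𝔄`.
-/

set_option autoImplicit false
set_option maxHeartbeats 400000

namespace Pool.Agent.Results.MP_3d3918_nt.DicksonPencils

open Polynomial NumberField IsDedekindDomain Pool.Agent.Y707.SQ
open Pool.Agent.Y707.DP (IsDickson endRank)
open Pool.Agent.Y707.PR (HasResidue)
open Pool.Agent.Y707.PC (IsFunctionField IsSmoothCurve PicFreeOfRank exists_field)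

theorem result (K : Type) [Field K] [NumberField K] (k l m : ℕ)
    (G : Fin l → MvPolynomial (Fin k) (𝓞 K)) (a : MvPolynomial (Fin k) (𝓞 K))
    (b : (MvPolynomial (Fin k) (𝓞 K))[X][X]) (h : IsDickson m G a) (hb : b.natDegree ≤ m)
    (E : IntermediateField K (AlgebraicClosure K)) [NumberField E] :
    -- the analytic side: the residue at `s = 1` of the series of the `-𝔄_v`
    (∀ R : Finset (HeightOneSpectrum (𝓞 E)), HasResidue R
      (fun v => -averageS m G a b
        ((Ideal.Quotient.mk v.asIdeal).comp (algebraMap (𝓞 K) (𝓞 E)))) 1 (endRank m E)) ∧
    -- the algebraic side: `Pic⁰ X` over `M(z)(v)`, for the function field `M` of `V` over `E`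
    (∀ (M : Type) [Field M] [Algebra E M] (ξ : Fin k → M) (η : Fin l → M),
      IsFunctionField G E ξ η → IsSmoothCurve m (genericS m a b E ξ) ∧
        PicFreeOfRank (genericS m a b E ξ) (endRank m E)) ∧
    -- the function field exists
    (∃ (M : Type) (_ : Field M) (_ : Algebra E M) (ξ : Fin k → M) (η : Fin l → M),
      IsFunctionField G E ξ η) :=
  ⟨fun R => self_residue h hb E R, fun _ _ _ _ _ hM => self_algebraic h hb E hM,
    exists_field G E⟩

end Pool.Agent.Results.MP_3d3918_nt.DicksonPencils
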