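import Pool.Agent.W353.FB.Final

/-!
# The analytic generalized Nagao conjecture over all number fields and for all Artin twists

`f : 𝒳 → 𝒴` is a fibration over a number field `K`, given over an affine open part of `𝒴` over which the
fibres are smooth, `B` is the `K(𝒴)/K`-trace (for trace zero: a point), and
`W = (P_X(K̄(𝒴)) / τB(K̄)) ⊗ ℚ` with the action of the absolute Galois group of `K`.  For a number field
`F ⊇ K` the dimension of `W^{Gal(K̄/F)}` is the rank of `P_X(F(𝒴)) / τB(F)`, and Q1 for `f` over `F` says
that `-Res_{s = 1} ∑ 𝔄*_v (log q_v) q_v^{-s}`, the sum over the primes `v` of `F`, is this rank.  The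
values used here are `z_v = -𝔄*_v = a_v(B) - 𝔄_v`.
-/

set_option autoImplicit false

namespace Pool.Agent.Results.MP_3d3918_nt.NagaoSpectrum

open NumberField IsDedekindDomain Filter Topology Pool.Agent.W353.FB
open Pool.Agent.W353.TD (rank)
open Pool.Agent.W353.AT (IsArtin twistRank)

theorem result (K : Type) [Field K] [NumberField K] (f : Fibration K) (n : ℕ)
    (B : Set (MvPolynomial (Fin n) (𝓞 K))) (g : ℕ) (hg : 1 ≤ g) (N : ℕ)
    (W : Type) [AddCommGroup W] [Module ℚ W] [FiniteDimensional ℚ W]
    (ρ : Representation ℚ Gal(AlgebraicClosure K/K) W)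
    (hW : IsPartOf (nagaoValue f B g) N ρ) :
    AnalyticSpectrum (nagaoValue f B g) N ρ :=
  analytic (nagao_uniq f B hg) hW

end Pool.Agent.Results.MP_3d3918_nt.NagaoSpectrum
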