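import Pool.Agent.Y707.DK.Res

/-!
# The analytic generalized Nagao conjecture for the curves `Y ^ 2 = D(X) + (w + b(X)) ^ 2`

`V` is the variety of the points `(x, y)` with `y_i ^ 2 = G_i(x)`, over the number field `K`, for
polynomials `G_i` in `k` variables such that no product of some of them is a constant times a square.
`X` is the curve `Y ^ 2 = D₀(X) ∏ (X - δ_j(x)) + (w + b(x, X)) ^ 2` of genus `g` over the function
field `E(V × 𝔸¹) = E(V)(w)`, for any number field `E ⊇ K`, where `D₀` is a monic polynomial over `𝓞_K`
without multiple roots, the `δ_j` are distinct functions, not roots of `D₀`, with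
`deg D₀ + r = 2 g + 1`, and `b` is any polynomial of degree at most `g` with coefficients in
`𝓞_K[x]`.  Its rank over `E(V)(w)` is the number of the irreducible factors of `D₀ ∏ (X - δ_j)` over `E`
minus one, and takes all values up to `2 g`.

`𝔄_v` is the fibre average of the traces of the Frobenius on `H¹` at the prime `v` of `E`, over the
points `(x, y, w)` of the base with `y_i ≠ 0` and smooth fibre (the other points of a projective model
of the base change `𝔄_v` by `O(q_v^{-1/2})`, which does not affect the residue).

`X` has a rational point at infinity, and `P_X = Pic⁰ X` is the class group of its affine coordinate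
ring.  It has no torsion over any `E`, so the `K(𝒴)/K`-trace of `P_X` is zero, and `𝔄* = 𝔄`.
-/

set_option autoImplicit false
set_option maxHeartbeats 400000

namespace Pool.Agent.Results.MP_3d3918_nt.QuadraticPencils

open Polynomial NumberField IsDedekindDomain Pool.Agent.Y707.DK
open Pool.Agent.Y707.PR (HasResidue)
open Pool.Agent.Y707.PC (IsFunctionField IsSmoothCurve PicFreeOfRank exists_field)

theorem result (K : Type) [Field K] [NumberField K] (k l r g : ℕ)
    (G : Fin l → MvPolynomial (Fin k) (𝓞 K)) (D₀ : (𝓞 K)[X])
    (δ : Fin r → MvPolynomial (Fin k) (𝓞 K)) (b : (MvPolynomial (Fin k) (𝓞 K))[X])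
    (h : IsQuadPencil g G D₀ δ b) (E : IntermediateField K (AlgebraicClosure K)) [NumberField E] :
    -- the analytic side: the residue at `s = 1` of the series of the `-𝔄_v`
    (∀ R : Finset (HeightOneSpectrum (𝓞 E)), HasResidue R
      (fun v => -averageQuad G D₀ δ b
        ((Ideal.Quotient.mk v.asIdeal).comp (algebraMap (𝓞 K) (𝓞 E)))) 1 (quadRank r D₀ E)) ∧
    -- the algebraic side: `Pic⁰ X` over `M(w)`, for the function field `M` of `V` over `E`
    (∀ (M : Type) [Field M] [Algebra E M] (ξ : Fin k → M) (η : Fin l → M),
      IsFunctionField G E ξ η → IsSmoothCurve g (genericQuad D₀ δ b E ξ) ∧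
        PicFreeOfRank (genericQuad D₀ δ b E ξ) (quadRank r D₀ E)) ∧
    -- the function field exists
    (∃ (M : Type) (_ : Field M) (_ : Algebra E M) (ξ : Fin k → M) (η : Fin l → M),
      IsFunctionField G E ξ η) :=
  ⟨fun R => quad_residue h E R, fun _ _ _ _ _ hM => quad_algebraic h E hM, exists_field G E⟩

end Pool.Agent.Results.MP_3d3918_nt.QuadraticPencils
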